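import Pool.Agent.N728.QG.Def2
import Pool.Agent.N27.QG.DS

set_option autoImplicit false

/-! # Project QH: the weighted sieve bound for arbitrary real shifts and coefficients (helper887)

After the file `N27/QG/DS.lean` of helper27. -/

namespace Pool.Agent.N887.QH

open Finset MeasureTheory Pool.Agent.N728.QL
open Pool.Agent.N372.QL (blocks block_bound cov g_cont sq_le log_diff pow50)
open Pool.Agent.N27.QG (root params)

/-- the sum with shifts and coefficients -/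
def Gk (I : Finset ℕ) (a κ : ℕ → ℝ) (g : ℝ → ℝ) (s : ℝ) : ℝ := ∑ i ∈ I, κ i * g (s - a i)

lemma Gk_le (I : Finset ℕ) (a κ : ℕ → ℝ) (g : ℝ → ℝ) (hκ : ∀ i ∈ I, |κ i| ≤ 1)
    (hg : ∀ s, |g s| ≤ 2) (s : ℝ) : |Gk I a κ g s| ≤ 2 * (I.card : ℝ) := by
  unfold Gk
  calc |∑ i ∈ I, κ i * g (s - a i)| ≤ ∑ i ∈ I, |κ i * g (s - a i)| :=
        Finset.abs_sum_le_sum_abs _ _
    _ ≤ ∑ i ∈ I, 2 := by
        refine Finset.sum_le_sum fun i hi => ?_
        rw [abs_mul]
        calc |κ i| * |g (s - a i)| ≤ 1 * 2 :=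
              mul_le_mul (hκ i hi) (hg _) (abs_nonneg _) (by norm_num)
          _ = 2 := by norm_num
    _ = 2 * (I.card : ℝ) := by
        rw [Finset.sum_const, nsmul_eq_mul]
        ring

lemma Gk_lip (I : Finset ℕ) (a κ : ℕ → ℝ) (g : ℝ → ℝ) (L : ℝ) (hκ : ∀ i ∈ I, |κ i| ≤ 1)
    (hg : ∀ s s', |g s - g s'| ≤ L * |s - s'|) (s s' : ℝ) :
    |Gk I a κ g s - Gk I a κ g s'| ≤ (I.card : ℝ) * L * |s - s'| := by
  unfold Gk
  rw [← Finset.sum_sub_distrib]
  calc |∑ i ∈ I, (κ i * g (s - a i) - κ i * g (s' - a i))| ≤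
        ∑ i ∈ I, |κ i * g (s - a i) - κ i * g (s' - a i)| := Finset.abs_sum_le_sum_abs _ _
    _ ≤ ∑ i ∈ I, L * |s - s'| := by
        refine Finset.sum_le_sum fun i hi => ?_
        rw [← mul_sub, abs_mul]
        have h1 := hg (s - a i) (s' - a i)
        have h2 : s - a i - (s' - a i) = s - s' := by ring
        rw [h2] at h1
        calc |κ i| * |g (s - a i) - g (s' - a i)| ≤ 1 * (L * |s - s'|) :=
              mul_le_mul (hκ i hi) h1 (abs_nonneg _) (by norm_num)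
          _ = L * |s - s'| := one_mul _
    _ = (I.card : ℝ) * L * |s - s'| := by
        rw [Finset.sum_const, nsmul_eq_mul]
        ring

lemma Gk_cont (I : Finset ℕ) (a κ : ℕ → ℝ) (g : ℝ → ℝ) (hg : Continuous g) :
    Continuous (Gk I a κ g) := by
  unfold Gk
  exact continuous_finset_sum _ fun i _ =>
    continuous_const.mul (hg.comp (continuous_id.sub continuous_const))

lemma Gk_int (I : Finset ℕ) (a κ : ℕ → ℝ) (g : ℝ → ℝ) (hg : Continuous g) (s0 : ℝ) (S0 : ℕ)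
    (hs : ∀ s, ¬ (s0 ≤ s ∧ s ≤ s0 + S0) → g s = 0) : Integrable fun s => Gk I a κ g s ^ 2 := by
  have hc : Continuous fun s => Gk I a κ g s ^ 2 := (Gk_cont I a κ g hg).pow 2
  apply hc.integrable_of_hasCompactSupport
  have hK : IsCompact (⋃ i ∈ I, Set.Icc (s0 + a i) (s0 + S0 + a i)) :=
    I.isCompact_biUnion fun m _ => isCompact_Icc
  apply HasCompactSupport.intro hK
  intro s hsK
  have h1 : Gk I a κ g s = 0 := by
    unfold Gk
    apply Finset.sum_eq_zero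
    intro i hi
    have h2 : g (s - a i) = 0 := by
      apply hs
      rintro ⟨h2, h3⟩
      apply hsK
      simp only [Set.mem_iUnion]
      exact ⟨i, hi, by linarith, by linarith⟩
    rw [h2, mul_zero]
  rw [h1]
  norm_num

/-- the analytic part -/
theorem core (M X Y Y0 h : ℕ) (b K lB L D : ℝ) (F : ℕ → ℕ → ℝ) (G : ℝ → ℝ)
    (hb : 50 ≤ b) (hK0 : 0 ≤ K) (hF0 : ∀ x t, 0 ≤ F x t) (hlog0 : 0 < lB) (hlog : lB ≤ b ^ 2)
    (hD0 : 0 ≤ D) (hDb : D ≤ b) (hL0 : 0 ≤ L) (hLb : L ≤ 2 * b) (hG2 : ∀ s, |G s| ≤ 2 * D)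
    (hGL : ∀ s s', |G s - G s'| ≤ D * L * |s - s'|) (hGc : Continuous G)
    (hGi : Integrable fun s => G s ^ 2)
    (hh1 : 1 ≤ h) (hhY : h ≤ Y0) (hYh : Y0 + h ≤ Y)
    (hY61 : (h : ℝ) * b ^ 10 ≤ Y0) (hY0b : (Y0 : ℝ) * b ^ 5 ≤ Y)
    (hU' : ∀ I1 I2 : ℕ, I1 + h ≤ I2 → I2 ≤ Y →
      ∑ x ∈ Icc 1 X, ∑ t ∈ Ioc I1 I2, F x t ≤ K * ((I2 : ℝ) - I1)) :
    ∑ x ∈ Icc 1 X, ∑ t ∈ Icc 1 Y, F x t * G (Real.log M + Real.log t) ^ 2 ≤
      2 * K * Y * ((∫ s, G s ^ 2) + 1 / lB) := by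
  have hbr0 : (0 : ℝ) < b := by linarith
  set W : ℝ → ℝ := fun s => G s ^ 2 with hW
  have hW0 : ∀ s, 0 ≤ W s := fun s => sq_nonneg _
  have hWc : Continuous W := hGc.pow 2
  have hWi : Integrable W := hGi
  set J : ℝ := ∫ s, W s with hJ
  have hJ0 : 0 ≤ J := integral_nonneg hW0
  set V : ℝ → ℝ := fun τ => W (Real.log M + Real.log τ) with hV
  have hV0 : ∀ τ, 0 ≤ V τ := fun τ => hW0 _
  have hVi : ∀ a a' : ℝ, 0 < a → a ≤ a' → IntervalIntegrable V volume a a' := by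
    intro a a' ha haa
    apply ContinuousOn.intervalIntegrable
    rw [Set.uIcc_of_le haa]
    apply hWc.comp_continuousOn
    apply continuousOn_const.add
    apply Real.continuousOn_log.mono
    intro x hx
    have : 0 < x := lt_of_lt_of_le ha hx.1
    exact this.ne'
  set S : ℕ → ℕ → ℝ := fun I1 I2 => ∑ x ∈ Icc 1 X, ∑ t ∈ Ioc I1 I2, F x t * V t with hS
  have hSadd : ∀ a b c : ℕ, a ≤ b → b ≤ c → S a c = S a b + S b c := by
    intro a b c h3 h4
    rw [hS]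
    dsimp only
    rw [← Finset.sum_add_distrib]
    apply Finset.sum_congr rfl
    intro x _
    exact (Finset.sum_Ioc_consecutive _ h3 h4).symm
  have hY01 : 1 ≤ Y0 := hh1.trans hhY
  have hY0r : (0 : ℝ) < Y0 := by exact_mod_cast hY01
  have hYr : (0 : ℝ) < Y := by
    have : 0 < Y := by omega
    exact_mod_cast this
  have hYY : (Y0 : ℝ) ≤ Y := by exact_mod_cast (by omega : Y0 ≤ Y)
  set e2 : ℝ := 1 / lB with he2
  have he20 : 0 < e2 := by rw [he2]; exact one_div_pos.2 hlog0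
  -- first part
  have hpart1 : S 0 Y0 ≤ K * (Y * e2) := by
    have h3 : S 0 Y0 ≤ ∑ x ∈ Icc 1 X, ∑ t ∈ Ioc 0 Y0, F x t * (2 * D) ^ 2 := by
      apply Finset.sum_le_sum
      intro x _
      apply Finset.sum_le_sum
      intro t _
      apply mul_le_mul_of_nonneg_left _ (hF0 x t)
      have h4 := hG2 (Real.log M + Real.log t)
      show G (Real.log M + Real.log t) ^ 2 ≤ _
      rw [← sq_abs]
      exact pow_le_pow_left₀ (abs_nonneg _) h4 2
    rw [← Finset.sum_congr rfl fun x _ => Finset.sum_mul (Ioc 0 Y0) (fun t => F x t) _,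
      ← Finset.sum_mul] at h3
    have h5 := hU' 0 Y0 (by omega) (by omega)
    have h6 : S 0 Y0 ≤ K * Y0 * (2 * D) ^ 2 := by
      refine h3.trans ?_
      apply mul_le_mul_of_nonneg_right _ (sq_nonneg _)
      refine h5.trans (le_of_eq ?_)
      push_cast
      ring
    refine h6.trans ?_
    rw [mul_assoc]
    apply mul_le_mul_of_nonneg_left _ hK0
    have h8 : (2 * D) ^ 2 ≤ 4 * b ^ 2 := by
      calc (2 * D) ^ 2 ≤ (2 * b) ^ 2 :=
            pow_le_pow_left₀ (by positivity) (by linarith) 2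
        _ = 4 * b ^ 2 := by ring
    rw [he2, mul_one_div, le_div_iff₀ hlog0]
    have hb2 : 0 < b ^ 2 := pow_pos hbr0 2
    have hb3 : 0 < b ^ 3 := pow_pos hbr0 3
    calc (Y0 : ℝ) * (2 * D) ^ 2 * lB
        ≤ (Y0 : ℝ) * (4 * b ^ 2) * b ^ 2 := by
          apply mul_le_mul _ hlog hlog0.le (mul_nonneg hY0r.le (by linarith))
          exact mul_le_mul_of_nonneg_left h8 hY0r.le
      _ = (Y0 : ℝ) * b ^ 4 * 4 := by ring
      _ ≤ (Y0 : ℝ) * b ^ 4 * b := by
          apply mul_le_mul_of_nonneg_left _ (mul_nonneg hY0r.le (pow_pos hbr0 4).le)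
          linarith
      _ = (Y0 : ℝ) * b ^ 5 := by ring
      _ ≤ Y := hY0b
  -- second part
  set R : ℕ → ℕ → ℝ := fun I1 I2 => K * ∫ τ in (I1 : ℝ)..I2, (2 * V τ + e2) with hR
  have hRi : ∀ a a' : ℝ, 0 < a → a ≤ a' →
      IntervalIntegrable (fun τ => 2 * V τ + e2) volume a a' := fun a a' h3 h4 =>
    ((hVi a a' h3 h4).const_mul 2).add intervalIntegrable_const
  have h8 : 2 * (h : ℝ) / Y0 ≤ 2 / b ^ 10 := by
    rw [div_le_div_iff₀ hY0r (pow_pos hbr0 10)]
    have h9 : 2 * (h : ℝ) * b ^ 10 = 2 * (h * b ^ 10) := by ring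
    rw [h9]
    linarith
  have h7 : D * L ≤ b * (2 * b) := mul_le_mul hDb hLb hL0 hbr0.le
  have h12 : 2 * (4 / b ^ 8) ^ 2 ≤ e2 := by
    have hb16 : 0 < (b ^ 8) ^ 2 := pow_pos (pow_pos hbr0 8) 2
    rw [he2, div_pow, ← mul_div_assoc, div_le_div_iff₀ hb16 hlog0]
    calc 2 * (4 : ℝ) ^ 2 * lB ≤ 2 * (4 : ℝ) ^ 2 * b ^ 2 :=
          mul_le_mul_of_nonneg_left hlog (by norm_num)
      _ ≤ 1 * (b ^ 8) ^ 2 := by
          have h13 : (50 : ℝ) ^ 14 ≤ b ^ 14 := pow_le_pow_left₀ (by norm_num) hb 14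
          have h14 : (32 : ℝ) ≤ (50 : ℝ) ^ 14 := by norm_num
          calc 2 * (4 : ℝ) ^ 2 * b ^ 2 = 32 * b ^ 2 := by ring
            _ ≤ b ^ 14 * b ^ 2 := mul_le_mul_of_nonneg_right (h14.trans h13) (pow_pos hbr0 2).le
            _ = 1 * (b ^ 8) ^ 2 := by ring
  have h15 : (b * (2 * b)) * (2 / b ^ 10) = 4 / b ^ 8 := by
    field_simp
    ring
  have hpart2 : S Y0 Y ≤ R Y0 Y := by
    refine blocks S R h Y0 Y hh1 (fun b' c' h3 h4 => hSadd Y0 b' c' h3 h4) ?_ ?_ Y hYh le_rfl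
    · intro b' c' h3 h4
      have h3' : (Y0 : ℝ) ≤ b' := by exact_mod_cast h3
      have h4' : (b' : ℝ) ≤ c' := by exact_mod_cast h4
      rw [hR]
      dsimp only
      rw [← mul_add, intervalIntegral.integral_add_adjacent_intervals (hRi _ _ hY0r h3')
        (hRi _ _ (by linarith) h4')]
    · intro I1 I2 h3 h4 h5 h6
      have h3' : (Y0 : ℝ) ≤ I1 := by exact_mod_cast h3
      have h12 : I1 < I2 := by omega
      have h12' : (I1 : ℝ) < I2 := by exact_mod_cast h12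
      have h6' : (I2 : ℝ) - I1 ≤ 2 * h := by
        have : (I2 : ℝ) ≤ I1 + 2 * h := by exact_mod_cast h6
        linarith
      refine block_bound X I1 I2 F hF0 V K e2 h12 ?_ hV0 ?_ he20.le
        (hVi _ _ (by linarith) h12'.le)
      · exact hU' I1 I2 h5 h4
      · intro t ht τ hτ
        rw [Finset.mem_Ioc] at ht
        have ht1 : (I1 : ℝ) < t := by exact_mod_cast ht.1
        have ht2 : (t : ℝ) ≤ I2 := by exact_mod_cast ht.2
        have hd : |(t : ℝ) - τ| ≤ 2 * h := by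
          rw [abs_le]
          constructor
          · linarith [hτ.1, hτ.2]
          · linarith [hτ.1, hτ.2]
        have hl := log_diff hY0r (by linarith : (Y0 : ℝ) ≤ t) (h3'.trans hτ.1) hd
        have hG := hGL (Real.log M + Real.log t) (Real.log M + Real.log τ)
        have e1 : Real.log M + Real.log t - (Real.log M + Real.log τ) =
            Real.log t - Real.log τ := by ring
        rw [e1] at hG
        have hG2 : |G (Real.log M + Real.log t) - G (Real.log M + Real.log τ)| ≤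
            4 / b ^ 8 := by
          refine hG.trans ?_
          rw [← h15]
          exact mul_le_mul h7 (hl.trans h8) (abs_nonneg _) (by positivity)
        have h11 := sq_le _ _ _ hG2
        show G (Real.log M + Real.log t) ^ 2 ≤
          2 * G (Real.log M + Real.log τ) ^ 2 + e2
        linarith
  have hcov : ∫ τ in (Y0 : ℝ)..Y, V τ ≤ Y * J :=
    cov W hWc hW0 hWi (Real.log M) Y0 Y hY0r hYY
  have hR2 : R Y0 Y ≤ K * (2 * (Y * J) + Y * e2) := by
    rw [hR]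
    apply mul_le_mul_of_nonneg_left _ hK0
    rw [intervalIntegral.integral_add ((hVi _ _ hY0r hYY).const_mul 2) intervalIntegrable_const,
      intervalIntegral.integral_const_mul, intervalIntegral.integral_const, smul_eq_mul]
    have h3 : ((Y : ℝ) - Y0) * e2 ≤ Y * e2 :=
      mul_le_mul_of_nonneg_right (by linarith) he20.le
    linarith
  have hIoc : Icc 1 Y = Ioc 0 Y := by
    ext t
    simp only [Finset.mem_Icc, Finset.mem_Ioc]
    omega
  rw [hIoc]
  show S 0 Y ≤ _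
  rw [hSadd 0 Y0 Y (Nat.zero_le _) (by omega)]
  have h3 : S 0 Y0 + S Y0 Y ≤ K * (Y * e2) + K * (2 * (Y * J) + Y * e2) :=
    add_le_add hpart1 (hpart2.trans hR2)
  refine h3.trans (le_of_eq ?_)
  ring

/-- the weighted sieve bound -/
theorem t_DSS (_h2 : S_MER) : Pool.Agent.N728.QG.S_DSS := by
  intro C0 k D S0 hC0 hD
  obtain ⟨N, hN⟩ : ∃ N, N = 200 * D := ⟨_, rfl⟩
  have hN1 : 1 ≤ N := by omega
  refine ⟨2 * C0, by positivity, max k N, (200 * D) ^ N, ?_⟩
  intro B hB Wf hW0 hU w y M X Y Ds a κ L s0 g hw hwy hyB hMB hM hX3 hX2 hY3 hY2 hDB hκ hL1 hLB hg2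
    hgL hgs
  obtain ⟨b, hb200, hb1, hb2⟩ := params N (200 * D) B hN1 hB
  have hb50 : 50 ≤ b := by omega
  have hBpos : 1 < B := by
    have h1 : (2 : ℕ) ^ 1 ≤ b ^ N := by
      calc (2 : ℕ) ^ 1 ≤ 2 ^ N := Nat.pow_le_pow_right (by omega) hN1
        _ ≤ b ^ N := Nat.pow_le_pow_left (by omega) _
    omega
  clear hB
  have hM1 : 1 ≤ M := Nat.pos_of_dvd_of_pos hM (PP_pos _ _)
  have hk : ∀ x : ℕ, 1 ≤ x → x ^ max k N ≤ B → x ^ k ≤ B := fun x hx h =>
    (Nat.pow_le_pow_right hx (le_max_left _ _)).trans h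
  have hX1 : 1 ≤ X := by
    rcases Nat.eq_zero_or_pos X with h | h
    · rw [h, zero_pow (by omega)] at hX3
      omega
    · exact h
  have hX4 : B ≤ X ^ (2 * D) := hX3.trans (Nat.pow_le_pow_right hX1 (by omega))
  have hXB : X ≤ B ^ (2 * D) := hX2.trans (Nat.pow_le_pow_right (by omega) (by omega))
  have hYB : Y ≤ B ^ (2 * D) := hY2.trans (Nat.pow_le_pow_right (by omega) (by omega))
  have hY200 : b ^ 200 ≤ Y := by
    by_contra hcon
    push Not at hcon
    have h3 : Y ^ D < (b ^ 200) ^ D := Nat.pow_lt_pow_left hcon (by omega)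
    rw [← pow_mul, ← hN] at h3
    omega
  have hb50' : 0 < b ^ 5 := pow_pos (by omega) 5
  obtain ⟨Y0, hY0⟩ : ∃ Y0, Y0 = Y / b ^ 5 := ⟨_, rfl⟩
  obtain ⟨h, hh⟩ : ∃ h, h = b ^ 102 := ⟨_, rfl⟩
  have hY61 : b ^ 195 ≤ Y0 := by
    rw [hY0, Nat.le_div_iff_mul_le hb50', ← pow_add]
    exact hY200
  have hY0b : Y0 * b ^ 5 ≤ Y := by
    rw [hY0]
    exact Nat.div_mul_le_self _ _
  have hb51 : h ≤ Y0 := by
    rw [hh]
    exact (Nat.pow_le_pow_right (by omega) (by norm_num)).trans hY61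
  have hB4 : B ≤ h ^ (2 * D) := by
    have h3 : (b + 1) ^ N = (((b + 1) ^ 50) ^ 2) ^ (2 * D) := by
      rw [← pow_mul, ← pow_mul, hN]
      congr 1
      ring
    have h4 : (((b + 1) ^ 50) ^ 2) ^ (2 * D) ≤ h ^ (2 * D) := by
      rw [hh]
      have h5 : ((b + 1) ^ 50) ^ 2 ≤ (b ^ 51) ^ 2 := Nat.pow_le_pow_left (pow50 hb50) 2
      rw [← pow_mul b] at h5
      exact Nat.pow_le_pow_left h5 _
    omega
  have hh1 : 1 ≤ h := by
    rw [hh]
    exact Nat.one_le_pow _ _ (by omega)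
  have hb5 : 2 ≤ b ^ 5 := by
    calc 2 ≤ b := by omega
      _ = b ^ 1 := (pow_one b).symm
      _ ≤ b ^ 5 := Nat.pow_le_pow_right (by omega) (by norm_num)
  have hYh : Y0 + h ≤ Y := by
    have h3 : Y0 * 2 ≤ Y := (Nat.mul_le_mul_left _ hb5).trans hY0b
    omega
  have hDb : Ds.card ≤ b := by
    rcases Nat.eq_zero_or_pos Ds.card with h3 | h3
    · omega
    · have h4 : Ds.card ^ N < (b + 1) ^ N :=
        lt_of_le_of_lt ((Nat.pow_le_pow_right h3 (le_max_right k N)).trans hDB) hb2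
      have := lt_of_pow_lt_pow_left₀ N (Nat.zero_le _) h4
      omega
  have hbr : (50 : ℝ) ≤ b := by exact_mod_cast hb50
  have hLb : L ≤ 2 * b := by
    have h3 : L ^ N < ((b : ℝ) + 1) ^ N := by
      have h4 : L ^ N ≤ (B : ℝ) := (pow_le_pow_right₀ hL1 (le_max_right k N)).trans hLB
      have h5 : (B : ℝ) < ((b : ℝ) + 1) ^ N := by exact_mod_cast hb2
      exact lt_of_le_of_lt h4 h5
    have h6 := lt_of_pow_lt_pow_left₀ N (by linarith) h3
    linarith
  have hBr : (1 : ℝ) < B := by exact_mod_cast hBpos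
  have hlog0 : 0 < Real.log B := Real.log_pos hBr
  have hlog : Real.log B ≤ (b : ℝ) ^ 2 := by
    have h3 : Real.log B ≤ Real.log (((b : ℝ) + 1) ^ N) := by
      apply Real.log_le_log (by linarith)
      exact_mod_cast hb2.le
    rw [Real.log_pow] at h3
    have h4 := Real.log_le_sub_one_of_pos (by linarith : (0 : ℝ) < (b : ℝ) + 1)
    have h5 : (N : ℝ) ≤ b := by
      rw [hN]
      exact_mod_cast hb200
    have h6 : (N : ℝ) * Real.log ((b : ℝ) + 1) ≤ b * b := by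
      apply mul_le_mul h5 (by linarith) (Real.log_nonneg (by linarith)) (by linarith)
    nlinarith
  have hgc : Continuous g := g_cont g L (by linarith) hgL
  have hK0 : 0 ≤ C0 * ((M : ℝ) / Nat.totient M) * VW w y ^ 2 * X :=
    mul_nonneg (mul_nonneg (mul_nonneg hC0.le (div_nonneg (Nat.cast_nonneg _)
      (Nat.cast_nonneg _))) (sq_nonneg _)) (Nat.cast_nonneg _)
  have hfin := core M X Y Y0 h (b : ℝ) (C0 * ((M : ℝ) / Nat.totient M) * VW w y ^ 2 * X)
    (Real.log B) L (Ds.card : ℝ) (fun x t => rg w y x * rg w y t * Wf (M * x * t))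
    (Gk Ds a κ g) hbr hK0
    (fun x t => mul_nonneg (mul_nonneg (rg_nonneg _ _ _) (rg_nonneg _ _ _)) (hW0 _))
    hlog0 hlog (Nat.cast_nonneg _) (by exact_mod_cast hDb) (by linarith) hLb
    (Gk_le Ds a κ g hκ hg2) (Gk_lip Ds a κ g L hκ hgL) (Gk_cont Ds a κ g hgc)
    (Gk_int Ds a κ g hgc s0 S0 hgs) hh1 hb51 hYh
    (by
      have h3 : h * b ^ 10 ≤ Y0 := by
        rw [hh, ← pow_add]
        exact (Nat.pow_le_pow_right (by omega) (by norm_num)).trans hY61
      exact_mod_cast h3) (by exact_mod_cast hY0b) ?_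
  · refine le_trans (le_of_eq ?_) (hfin.trans (le_of_eq ?_))
    · rfl
    · show 2 * (C0 * ((M : ℝ) / Nat.totient M) * VW w y ^ 2 * X) * Y *
        ((∫ s, Gk Ds a κ g s ^ 2) + 1 / Real.log B) = 2 * C0 * ((M : ℝ) / Nat.totient M) *
        VW w y ^ 2 * ((X : ℝ) * Y) * ((∫ s, Gk Ds a κ g s ^ 2) + 1 / Real.log B)
      ring
  · intro I1 I2 h3 h5
    have h4 : B ≤ (I2 - I1) ^ (2 * D) := hB4.trans (Nat.pow_le_pow_left (by omega) _)
    have h6 := hU w y M X I1 I2 hw hwy (hk y (by omega) hyB)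
      (hk M hM1 hMB) hM hX4 hXB (by omega) h4 (h5.trans hYB)
    refine h6.trans (le_of_eq ?_)
    ring

end Pool.Agent.N887.QH
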